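import Pool.Agent.PST.StmtsET2

/-!
# Squad PST, row COM: the `σ v` commute
-/

set_option autoImplicit false

open scoped BigOperators

noncomputable section

namespace Pool.Agent.PST.ET.H37

open Pool.Agent.PST.ET
open Pool.Agent.PFD.D2 (Cdv FibG)

section
variable {R Hs : Type} [CommRing R] [Ring Hs] [Algebra R Hs]

/-- the submodule `p ^ k N` -/
def Mk (p : R) (N : Submodule R Hs) (k : ℕ) : Submodule R Hs :=
  N.map (LinearMap.lsmul R Hs (p ^ k))

theorem mem_Mk {p : R} {N : Submodule R Hs} {k : ℕ} {a : Hs} :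
    a ∈ Mk p N k ↔ ∃ d ∈ N, a = p ^ k • d := by
  unfold Mk
  rw [Submodule.mem_map]
  constructor
  · rintro ⟨d, hd, rfl⟩
    exact ⟨d, hd, by rw [LinearMap.lsmul_apply]⟩
  · rintro ⟨d, hd, rfl⟩
    exact ⟨d, hd, by rw [LinearMap.lsmul_apply]⟩

theorem Mk_mul_left {p : R} {N : Subalgebra R Hs} {k : ℕ} {a b : Hs} (ha : a ∈ N)
    (hb : b ∈ Mk p N.toSubmodule k) : a * b ∈ Mk p N.toSubmodule k := by
  rw [mem_Mk] at hb ⊢
  obtain ⟨d, hd, rfl⟩ := hb
  exact ⟨a * d, N.mul_mem ha hd, by rw [mul_smul_comm]⟩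

theorem Mk_mul_right {p : R} {N : Subalgebra R Hs} {k : ℕ} {a b : Hs} (ha : a ∈ N)
    (hb : b ∈ Mk p N.toSubmodule k) : b * a ∈ Mk p N.toSubmodule k := by
  rw [mem_Mk] at hb ⊢
  obtain ⟨d, hd, rfl⟩ := hb
  exact ⟨d * a, N.mul_mem hd ha, by rw [smul_mul_assoc]⟩

theorem Mk_anti {p : R} {N : Submodule R Hs} {k j : ℕ} (h : j ≤ k) {a : Hs} (ha : a ∈ Mk p N k) :
    a ∈ Mk p N j := by
  rw [mem_Mk] at ha ⊢
  obtain ⟨d, hd, rfl⟩ := ha
  refine ⟨p ^ (k - j) • d, N.smul_mem _ hd, ?_⟩
  rw [smul_smul, ← pow_add, Nat.add_sub_cancel' h]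

/-- the elements of `N` whose commutators with `N` are in `p ^ k N` -/
def Bk (p : R) (N : Subalgebra R Hs) (k : ℕ) : Subalgebra R Hs where
  carrier := {a | a ∈ N ∧ ∀ b ∈ N, a * b - b * a ∈ Mk p N.toSubmodule k}
  mul_mem' := by
    rintro a a' ⟨ha, ha2⟩ ⟨hb, hb2⟩
    refine ⟨N.mul_mem ha hb, fun b hb' => ?_⟩
    have e : a * a' * b - b * (a * a') = a * (a' * b - b * a') + (a * b - b * a) * a' := by
      noncomm_ring
    rw [e]
    exact Submodule.add_mem _ (Mk_mul_left ha (hb2 b hb')) (Mk_mul_right hb (ha2 b hb'))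
  add_mem' := by
    rintro a a' ⟨ha, ha2⟩ ⟨hb, hb2⟩
    refine ⟨N.add_mem ha hb, fun b hb' => ?_⟩
    have e : (a + a') * b - b * (a + a') = (a * b - b * a) + (a' * b - b * a') := by
      noncomm_ring
    rw [e]
    exact Submodule.add_mem _ (ha2 b hb') (hb2 b hb')
  algebraMap_mem' := by
    intro r
    refine ⟨N.algebraMap_mem r, fun b _ => ?_⟩
    rw [Algebra.commutes, sub_self]
    exact Submodule.zero_mem _

theorem mem_Bk {p : R} {N : Subalgebra R Hs} {k : ℕ} {a : Hs} :
    a ∈ Bk p N k ↔ a ∈ N ∧ ∀ b ∈ N, a * b - b * a ∈ Mk p N.toSubmodule k := Iff.rfl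

/-- the power of the commutation operator in characteristic `ℓ` -/
theorem ad_pow (ℓ : ℕ) (hℓ : ℓ.Prime) (h0 : ∀ z : Hs, (ℓ : R) • z = 0) (s b : Hs) :
    ((LinearMap.mulLeft R s - LinearMap.mulRight R s) ^ ℓ) b = s ^ ℓ * b - b * s ^ ℓ := by
  have hc : Commute (LinearMap.mulLeft R s - LinearMap.mulRight R s) (LinearMap.mulRight R s) :=
    (LinearMap.commute_mulLeft_right (R := R) s s).sub_left (Commute.refl _)
  have h1 := hc.add_pow_prime_eq hℓ
  rw [sub_add_cancel, LinearMap.pow_mulLeft, LinearMap.pow_mulRight, mul_assoc, mul_assoc] at h1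
  have h2 := congrArg (fun φ : Hs →ₗ[R] Hs => φ b) h1
  simp only [LinearMap.add_apply, LinearMap.mulLeft_apply, LinearMap.mulRight_apply] at h2
  have h3 : ∀ φ : Module.End R Hs, ((ℓ : Module.End R Hs) * φ) b = 0 := by
    intro φ
    rw [Module.End.mul_apply, Module.End.natCast_apply, ← Nat.cast_smul_eq_nsmul R, h0]
  rw [h3, add_zero] at h2
  rw [h2]
  abel

end

/-- COM -/
theorem com (gen : GenStmt) (rli : RliStmt) (tor : TorStmt) : ComStmt := by
  intro ℓ r _ R F V H Hs _ _ _ _ _ _ _ _ _ _ _ _ c f α lam' lam xx t σ hV hE hP h1 hq hmul hpw hcm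
  have hℓ : ℓ.Prime := Fact.out
  have hℓ2 : 2 ≤ ℓ := hℓ.two_le
  obtain ⟨tor1, tor2⟩ := tor R F Hs c
  obtain ⟨_, _, hpure⟩ := rli R F V H Hs c f α lam' σ hP hq
  -- the subalgebra
  have hmul' : ∀ a ∈ Submodule.span R (Set.range σ), ∀ b ∈ Submodule.span R (Set.range σ),
      a * b ∈ Submodule.span R (Set.range σ) := by
    intro a ha b hb
    have h2 := Submodule.mul_mem_mul ha hb
    rw [Submodule.span_mul_span] at h2
    refine Submodule.span_le.2 ?_ h2
    rintro _ ⟨_, ⟨u, rfl⟩, _, ⟨v, rfl⟩, rfl⟩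
    exact hmul u v
  obtain ⟨N, hN⟩ : ∃ N : Subalgebra R Hs, ∀ a, a ∈ N ↔ a ∈ Submodule.span R (Set.range σ) :=
    ⟨{ carrier := {a | a ∈ Submodule.span R (Set.range σ)}
       mul_mem' := fun {a b} ha hb => hmul' a ha b hb
       add_mem' := fun {a b} ha hb => (Submodule.span R (Set.range σ)).add_mem ha hb
       algebraMap_mem' := fun s => by
        show algebraMap R Hs s ∈ Submodule.span R (Set.range σ)
        rw [Algebra.algebraMap_eq_smul_one, ← h1]
        exact Submodule.smul_mem _ _ (Submodule.subset_span ⟨1, rfl⟩) }, fun a => Iff.rfl⟩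
  have hσ : ∀ v, σ v ∈ N := fun v => (hN _).2 (Submodule.subset_span ⟨v, rfl⟩)
  have hpureN : ∀ h : Hs, c.π • h ∈ N → h ∈ N := fun h hh => (hN h).2 (hpure h ((hN _).1 hh))
  have hsm : ∀ (s : R) (z : Hs), f.q (s • z) = c.κ s • f.q z := by
    intro s z
    rw [Algebra.smul_def, map_mul, f.sc, ← Algebra.smul_def]
  have hchar : ∀ z : Hs, (ℓ : R) • z = 0 := by
    intro z
    rw [CharP.cast_eq_zero, zero_smul]
  -- the claim
  have key : ∀ n : ℕ, 2 ≤ n → ∀ a ∈ N, ∀ b ∈ N, a * b - b * a ∈ Mk c.π N.toSubmodule n := by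
    intro n hn
    induction n, hn using Nat.le_induction with
    | base =>
      have hb : ∀ v, σ v ∈ Bk c.π N 2 := by
        intro v
        refine mem_Bk.2 ⟨hσ v, fun b hb => ?_⟩
        rw [hN] at hb
        induction hb using Submodule.span_induction with
        | mem b hb =>
          obtain ⟨u, rfl⟩ := hb
          obtain ⟨d, hd, hd2⟩ := hcm v u
          exact mem_Mk.2 ⟨d, (hN d).2 hd, hd2⟩
        | zero => rw [mul_zero, zero_mul, sub_self]; exact Submodule.zero_mem _
        | add b b' _ _ hb hb' =>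
          have e : σ v * (b + b') - (b + b') * σ v = (σ v * b - b * σ v) + (σ v * b' - b' * σ v) := by
            noncomm_ring
          rw [e]
          exact Submodule.add_mem _ hb hb'
        | smul s b _ hb =>
          rw [mul_smul_comm, smul_mul_assoc, ← smul_sub]
          exact Submodule.smul_mem _ _ hb
      intro a ha
      have h2 : a ∈ Bk c.π N 2 := by
        rw [hN] at ha
        refine (Submodule.span_le (p := (Bk c.π N 2).toSubmodule)).2 ?_ ha
        rintro _ ⟨v, rfl⟩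
        exact hb v
      exact (mem_Bk.1 h2).2
    | succ n hn ih =>
      -- the multiples of `π`
      have hB1 : ∀ a ∈ N, c.π • a ∈ Bk c.π N (n + 1) := by
        intro a ha
        refine mem_Bk.2 ⟨N.smul_mem ha _, fun b hb => ?_⟩
        obtain ⟨d, hd, hd2⟩ := mem_Mk.1 (ih a ha b hb)
        refine mem_Mk.2 ⟨d, hd, ?_⟩
        rw [smul_mul_assoc, mul_smul_comm, ← smul_sub, hd2, smul_smul, pow_succ']
      -- the elements `g`
      have hB2 : ∀ v (g : Hs), g ∈ N → σ v ^ ℓ = 1 + c.π • g → g ∈ Bk c.π N (n + 1) := by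
        intro v g hg hpg
        refine mem_Bk.2 ⟨hg, fun b hb => ?_⟩
        have hk : ∀ j : ℕ, ((LinearMap.mulLeft R (σ v) - LinearMap.mulRight R (σ v)) ^ j) b ∈
            Mk c.π N.toSubmodule (n * j) := by
          intro j
          induction j with
          | zero =>
            rw [pow_zero, Module.End.one_apply, mul_zero]
            exact mem_Mk.2 ⟨b, hb, by rw [pow_zero, one_smul]⟩
          | succ j ihj =>
            rw [pow_succ', Module.End.mul_apply]
            obtain ⟨d, hd, hd2⟩ := mem_Mk.1 ihj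
            rw [hd2, map_smul]
            obtain ⟨d', hd', hd2'⟩ := mem_Mk.1 (ih (σ v) (hσ v) d hd)
            refine mem_Mk.2 ⟨d', hd', ?_⟩
            rw [LinearMap.sub_apply, LinearMap.mulLeft_apply, LinearMap.mulRight_apply, hd2',
              smul_smul, ← pow_add, mul_add, mul_one]
        obtain ⟨d, hd, hd2⟩ := mem_Mk.1 (hk ℓ)
        rw [ad_pow ℓ hℓ hchar, hpg] at hd2
        have hle : n + 1 + 1 ≤ n * ℓ := by nlinarith
        obtain ⟨m, hm⟩ := Nat.exists_eq_add_of_le hle
        have e1 : c.π ^ 1 • ((g * b - b * g) - c.π ^ (n + 1 + m) • d) = 0 := by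
          have e2 : (1 + c.π • g) * b - b * (1 + c.π • g) = c.π • (g * b - b * g) := by
            rw [add_mul, mul_add, smul_mul_assoc, mul_smul_comm, smul_sub, one_mul, mul_one]
            abel
          rw [pow_one, smul_sub, ← e2, hd2, smul_smul, ← pow_succ', hm,
            show n + 1 + 1 + m = n + 1 + m + 1 by ring, sub_self]
        have e3 := sub_eq_zero.1 (tor1 1 _ e1)
        rw [e3]
        exact Mk_anti (Nat.le_add_right (n + 1) m) (mem_Mk.2 ⟨d, hd, rfl⟩)
      -- the image in `H`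
      obtain ⟨Q, hQ⟩ : ∃ Q : Subalgebra F H, ∀ h, h ∈ Q ↔ ∃ a ∈ Bk c.π N (n + 1), f.q a = h :=
        ⟨{ carrier := {h | ∃ a ∈ Bk c.π N (n + 1), f.q a = h}
           mul_mem' := by
            rintro _ _ ⟨a, ha, rfl⟩ ⟨b, hb, rfl⟩
            exact ⟨a * b, (Bk c.π N (n + 1)).mul_mem ha hb, map_mul _ _ _⟩
           add_mem' := by
            rintro _ _ ⟨a, ha, rfl⟩ ⟨b, hb, rfl⟩
            exact ⟨a + b, (Bk c.π N (n + 1)).add_mem ha hb, map_add _ _ _⟩
           algebraMap_mem' := by
            intro s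
            obtain ⟨s', rfl⟩ := c.surj s
            exact ⟨algebraMap R Hs s', (Bk c.π N (n + 1)).algebraMap_mem s', f.sc s'⟩ },
          fun h => Iff.rfl⟩
      have hα : ∀ v, α v ∈ Q := by
        have h2 := gen ℓ r F V (MonoidAlgebra F V) (MonoidAlgebra.of F V) lam xx t
          (Q.comap (MonoidAlgebra.lift F H V α)) hV hE (fun v => ?_)
        · intro v
          have h3 := h2 v
          rw [Subalgebra.mem_comap, MonoidAlgebra.lift_of] at h3
          exact h3
        · rw [Subalgebra.mem_comap, map_sum]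
          obtain ⟨g, hg, hg1, hg2⟩ := hpw v
          have e1 : ∑ u, (MonoidAlgebra.lift F H V α) (gv lam xx t v u • (MonoidAlgebra.of F V) u) =
              f.q g := by
            rw [hg2]
            refine Finset.sum_congr rfl fun u _ => ?_
            rw [map_smul, MonoidAlgebra.lift_of]
          rw [e1]
          exact (hQ _).2 ⟨g, hB2 v g ((hN g).2 hg) hg1, rfl⟩
      have hNB : ∀ b ∈ N, b ∈ Bk c.π N (n + 1) := by
        intro b hb
        have hqb : ∀ b ∈ Submodule.span R (Set.range σ), f.q b ∈ Q := by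
          intro b hb'
          induction hb' using Submodule.span_induction with
          | mem b hb =>
            obtain ⟨u, rfl⟩ := hb
            rw [hq]
            exact hα u
          | zero => rw [map_zero]; exact Q.zero_mem
          | add x y hx hy h2 h3 =>
            rw [map_add]
            exact Q.add_mem h2 h3
          | smul s x hx h2 =>
            rw [hsm]
            exact Q.smul_mem h2 _
        obtain ⟨a, ha, hab⟩ := (hQ _).1 (hqb b ((hN b).1 hb))
        obtain ⟨y, hy⟩ := f.ker (b - a) (by rw [map_sub, hab, sub_self])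
        have haN : a ∈ N := (mem_Bk.1 ha).1
        have hyN : y ∈ N := hpureN y (by rw [← hy]; exact N.sub_mem hb haN)
        have e1 : b = a + c.π • y := by rw [← hy]; abel
        rw [e1]
        exact (Bk c.π N (n + 1)).add_mem ha (hB1 y hyN)
      intro a ha
      exact (mem_Bk.1 (hNB a ha)).2
  intro u v
  refine sub_eq_zero.1 (tor2 _ fun n => ?_)
  obtain ⟨d, _, hd⟩ := mem_Mk.1 (Mk_anti (show n ≤ n + 2 by omega)
    (key (n + 2) (by omega) (σ u) (hσ u) (σ v) (hσ v)))
  exact ⟨d, hd⟩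

end Pool.Agent.PST.ET.H37
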