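import Pool.Agent.PST.StmtsET2

/-!
# Squad PST, row TAU: the Casimir trace
-/

set_option autoImplicit false

open scoped BigOperators

noncomputable section

namespace Pool.Agent.PST.ET.H37

open Pool.Agent.PST.ET

section
variable {R D K : Type} [CommRing R] [Ring D] [Algebra R D] [Fintype K] {T : D →ₗ[R] R}
  {x y : K → D}

/-- the Casimir trace is central -/
theorem central (h : SFr R T x y) (a d : D) :
    d * ∑ k, x k * a * y k = (∑ k, x k * a * y k) * d := by
  have h1 : ∀ k, d * (x k * a * y k) = ∑ l, T (y l * d * x k) • (x l * a * y k) := by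
    intro k
    conv_lhs => rw [← mul_assoc, ← mul_assoc, ← h.e1 (d * x k)]
    rw [Finset.sum_mul, Finset.sum_mul]
    refine Finset.sum_congr rfl fun l _ => ?_
    rw [smul_mul_assoc, smul_mul_assoc, mul_assoc (y l)]
  have h2 : ∀ l, x l * a * y l * d = ∑ k, T (y l * d * x k) • (x l * a * y k) := by
    intro l
    conv_lhs => rw [mul_assoc, ← h.e2 (y l * d)]
    rw [Finset.mul_sum]
    refine Finset.sum_congr rfl fun k _ => ?_
    rw [mul_smul_comm]
  rw [Finset.mul_sum, Finset.sum_mul, Finset.sum_congr rfl fun k _ => h1 k,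
    Finset.sum_congr rfl fun l _ => h2 l, Finset.sum_comm]

/-- the opposite Casimir trace is central -/
theorem central' (h : SFr R T x y) (z b : D) :
    b * ∑ k, y k * z * x k = (∑ k, y k * z * x k) * b := by
  have h1 : ∀ k, b * (y k * z * x k) = ∑ l, T (b * y k * x l) • (y l * z * x k) := by
    intro k
    conv_lhs => rw [← mul_assoc, ← mul_assoc, ← h.e2 (b * y k)]
    rw [Finset.sum_mul, Finset.sum_mul]
    refine Finset.sum_congr rfl fun l _ => ?_
    rw [smul_mul_assoc, smul_mul_assoc]
  have h2 : ∀ l, y l * z * x l * b = ∑ k, T (b * y k * x l) • (y l * z * x k) := by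
    intro l
    conv_lhs => rw [mul_assoc, ← h.e1 (x l * b)]
    rw [Finset.mul_sum]
    refine Finset.sum_congr rfl fun k _ => ?_
    rw [mul_smul_comm, mul_assoc b, h.sym b, mul_assoc (y k)]
  rw [Finset.mul_sum, Finset.sum_mul, Finset.sum_congr rfl fun k _ => h1 k,
    Finset.sum_congr rfl fun l _ => h2 l, Finset.sum_comm]

/-- the adjoint -/
theorem adj (h : SFr R T x y) (c z : D) :
    T ((∑ k, x k * c * y k) * z) = T (c * ∑ k, y k * z * x k) := by
  rw [Finset.sum_mul, Finset.mul_sum, map_sum, map_sum]
  refine Finset.sum_congr rfl fun k _ => ?_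
  have e1 : x k * c * y k * z = x k * (c * y k * z) := by noncomm_ring
  have e2 : c * (y k * z * x k) = c * y k * z * x k := by noncomm_ring
  rw [e1, e2, h.sym]

/-- the Casimir trace vanishes on the commutators -/
theorem comm (h : SFr R T x y) (a b : D) :
    ∑ k, x k * (a * b) * y k = ∑ k, x k * (b * a) * y k := by
  have h1 : ∀ z, T ((∑ k, x k * (a * b) * y k) * z) = T ((∑ k, x k * (b * a) * y k) * z) := by
    intro z
    rw [adj h, adj h, mul_assoc, central' h z b, ← mul_assoc, h.sym, ← mul_assoc]
  rw [← h.e2 (∑ k, x k * (a * b) * y k), ← h.e2 (∑ k, x k * (b * a) * y k)]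
  refine Finset.sum_congr rfl fun k _ => ?_
  rw [h1]

end

/-- TAU -/
theorem tau : TauStmt := by
  intro R D K _ _ _ _ T x y h
  refine ⟨fun a d => central h a d, fun a b => comm h a b, fun z hz => ?_⟩
  unfold cmt at hz
  induction hz using Submodule.span_induction with
  | mem z hz =>
    obtain ⟨a, b, rfl⟩ := hz
    have : ∀ k, x k * (a * b - b * a) * y k = x k * (a * b) * y k - x k * (b * a) * y k := by
      intro k
      rw [mul_sub, sub_mul]
    rw [Finset.sum_congr rfl fun k _ => this k, Finset.sum_sub_distrib, comm h a b, sub_self]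
  | zero => simp
  | add z w _ _ hz hw =>
    have : ∀ k, x k * (z + w) * y k = x k * z * y k + x k * w * y k := by
      intro k
      rw [mul_add, add_mul]
    rw [Finset.sum_congr rfl fun k _ => this k, Finset.sum_add_distrib, hz, hw, add_zero]
  | smul r z _ hz =>
    have : ∀ k, x k * (r • z) * y k = r • (x k * z * y k) := by
      intro k
      rw [mul_smul_comm, smul_mul_assoc]
    rw [Finset.sum_congr rfl fun k _ => this k, ← Finset.smul_sum, hz, smul_zero]

end Pool.Agent.PST.ET.H37
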